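import Mathlib

open Classical

namespace Pool.Agent.Results.MP_3c4d8f_co.MinDegreeBound

universe u

variable {V : Type u}

/-- PSD forts: `F` is nonempty and for every vertex `v` outside `F` and every connected component
`W` of the subgraph induced on `F`, the number of neighbours of `v` in `W` is not `1`. -/
def IsPSDFort (G : SimpleGraph V) (F : Set V) : Prop :=
  F.Nonempty ∧ ∀ v, v ∉ F → ∀ W : (G.induce F).ConnectedComponent,
    {x : V | G.Adj v x ∧ ∃ h : x ∈ F, (G.induce F).connectedComponentMk ⟨x, h⟩ = W}.ncard ≠ 1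

/-- `F` is a private PSD fort of `u` relative to `S`. -/
def IsPrivate (G : SimpleGraph V) (S : Set V) (u : V) (F : Set V) : Prop :=
  IsPSDFort G F ∧ S ∩ F = {u}

/-- `S` is a `Z₊Ir`-set: every element of `S` has a private PSD fort. -/
def IsZIr (G : SimpleGraph V) (S : Set V) : Prop :=
  ∀ u ∈ S, ∃ F, IsPrivate G S u F

/-- `S` is maximal under inclusion among the `Z₊Ir`-sets. -/
def IsMaxZIr (G : SimpleGraph V) (S : Set V) : Prop :=
  IsZIr G S ∧ ∀ T, IsZIr G T → S ⊆ T → T = S

/-- The lower PSD forcing irredundance number. -/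
noncomputable def zir (G : SimpleGraph V) : ℕ :=
  sInf {k | ∃ S : Set V, IsMaxZIr G S ∧ S.ncard = k}

/-- The minimum degree. -/
noncomputable def delta (G : SimpleGraph V) : ℕ :=
  sInf {d | ∃ v : V, (G.neighborSet v).ncard = d}

section core

variable [Fintype V] (G : SimpleGraph V)

set_option linter.unusedSectionVars false

/-- Outer boundary. -/
noncomputable def nb (Z : Finset V) : Finset V :=
  Finset.univ.filter (fun v => v ∉ Z ∧ ∃ z ∈ Z, G.Adj v z)

/-- `A` is closed in `Y`. -/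
def Cl (A Y : Finset V) : Prop := A ⊆ Y ∧ ∀ a ∈ A, ∀ b ∈ Y, G.Adj a b → b ∈ A

/-- cut-connectedness -/
def Conn (Y : Finset V) : Prop :=
  Y.Nonempty ∧ ∀ A, Cl G A Y → A.Nonempty → A = Y

/-- neighbours of `v` in `Y` -/
noncomputable def ne (v : V) (Y : Finset V) : Finset V := Y.filter (fun x => G.Adj v x)

/-- connected forts -/
def CF (Y : Finset V) : Prop := Conn G Y ∧ ∀ v, v ∉ Y → (ne G v Y).card ≠ 1

variable {G}

lemma mem_nb {Z : Finset V} {v : V} : v ∈ nb G Z ↔ v ∉ Z ∧ ∃ z ∈ Z, G.Adj v z := by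
  simp [nb]

lemma mem_ne {v x : V} {Y : Finset V} : x ∈ ne G v Y ↔ x ∈ Y ∧ G.Adj v x := by
  simp [ne]

lemma Cl.trans {A B C : Finset V} (h1 : Cl G A B) (h2 : Cl G B C) : Cl G A C := by
  refine ⟨h1.1.trans h2.1, fun a ha b hb hab => h1.2 a ha b (h2.2 a (h1.1 ha) b hb hab) hab⟩

lemma Cl.sdiff {A B : Finset V} (h : Cl G A B) : Cl G (B \ A) B := by
  refine ⟨Finset.sdiff_subset, fun a ha b hb hab => ?_⟩
  rw [Finset.mem_sdiff] at ha ⊢
  exact ⟨hb, fun hbA => ha.2 (h.2 b hbA a ha.1 hab.symm)⟩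

/-- every nonempty set contains a connected closed subset -/
lemma exists_comp {Y : Finset V} (hY : Y.Nonempty) : ∃ C, Cl G C Y ∧ Conn G C := by
  have hne : (Y.powerset.filter (fun A => Cl G A Y ∧ A.Nonempty)).Nonempty :=
    ⟨Y, by
      rw [Finset.mem_filter, Finset.mem_powerset]
      exact ⟨Finset.Subset.refl _, ⟨Finset.Subset.refl _, fun _ _ b hb _ => hb⟩, hY⟩⟩
  obtain ⟨C, hC, hmin⟩ := Finset.exists_min_image _ (fun A => A.card) hne
  rw [Finset.mem_filter] at hC
  refine ⟨C, hC.2.1, hC.2.2, fun A hA hAne => ?_⟩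
  have h := hmin A (by
    rw [Finset.mem_filter, Finset.mem_powerset]
    exact ⟨hA.1.trans hC.2.1.1, hA.trans hC.2.1, hAne⟩)
  exact Finset.eq_of_subset_of_card_le hA.1 h

lemma nb_comp {C Y : Finset V} (h : Cl G C Y) : nb G C ⊆ nb G Y := by
  intro v hv
  rw [mem_nb] at hv ⊢
  obtain ⟨hvC, z, hz, hadj⟩ := hv
  exact ⟨fun hvY => hvC (h.2 z hz v hvY hadj.symm), z, h.1 hz, hadj⟩

/-- `Z` is a minimal configuration with boundary size `b`. -/
structure Min (G : SimpleGraph V) (S Z : Finset V) (b : ℕ) : Prop where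
  conn : Conn G Z
  disj : Disjoint Z S
  card : (nb G Z).card = b
  le : ∀ Y, Conn G Y → Disjoint Y S → b ≤ (nb G Y).card
  lt : ∀ Y, Conn G Y → Y ⊆ Z → Y ≠ Z → b + 1 ≤ (nb G Y).card

lemma exists_Min (S : Finset V) (hS : S ≠ Finset.univ) :
    ∃ Z b, Min G S Z b ∧ b ≤ S.card := by
  have hne0 : (Finset.univ \ S).Nonempty := by
    rw [Finset.sdiff_nonempty]
    intro h
    exact hS (Finset.univ_subset_iff.mp h)
  obtain ⟨C, hC, hCc⟩ := exists_comp (G := G) hne0
  have hCS : Disjoint C S := by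
    rw [Finset.disjoint_left]
    intro a ha
    exact (Finset.mem_sdiff.mp (hC.1 ha)).2
  have hne : (Finset.univ.filter (fun Y => Conn G Y ∧ Disjoint Y S)).Nonempty :=
    ⟨C, by simp [hCc, hCS]⟩
  obtain ⟨Z, hZ, hmin⟩ := Finset.exists_min_image _
    (fun A => (nb G A).card * (Fintype.card V + 1) + A.card) hne
  rw [Finset.mem_filter] at hZ
  have hle : ∀ Y, Conn G Y → Disjoint Y S → (nb G Z).card ≤ (nb G Y).card := by
    intro Y hY hYS
    have h := hmin Y (by simp [hY, hYS])
    by_contra hlt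
    push Not at hlt
    have h1 : Y.card ≤ Fintype.card V := Finset.card_le_univ Y
    have h2 : (nb G Y).card * (Fintype.card V + 1) + (Fintype.card V + 1)
        ≤ (nb G Z).card * (Fintype.card V + 1) := by
      have := Nat.mul_le_mul_right (Fintype.card V + 1) (Nat.succ_le_of_lt hlt)
      nlinarith
    omega
  refine ⟨Z, (nb G Z).card, ⟨hZ.2.1, hZ.2.2, rfl, hle, ?_⟩, ?_⟩
  · intro Y hY hYZ hne'
    have hYS : Disjoint Y S := Finset.disjoint_of_subset_left hYZ hZ.2.2
    have h := hmin Y (by simp [hY, hYS])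
    have h1 := hle Y hY hYS
    by_contra hlt
    push Not at hlt
    have heq : (nb G Y).card = (nb G Z).card := by omega
    rw [heq] at h
    have : Y.card < Z.card := Finset.card_lt_card (Finset.ssubset_iff_subset_ne.mpr ⟨hYZ, hne'⟩)
    omega
  · refine (hle C hCc hCS).trans (Finset.card_le_card ?_)
    intro v hv
    rw [mem_nb] at hv
    obtain ⟨hvC, z, hz, hadj⟩ := hv
    by_contra hvS
    exact hvC (hC.2 z hz v (by simp [hvS]) hadj.symm)

/-- main boundary fact -/
lemma full {S Z : Finset V} {b : ℕ} (hM : Min G S Z b) {Y R : Finset V} (hYZ : Y ⊆ Z)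
    (hne : Y ≠ Z) (hR : nb G Y ⊆ R) (hRc : R.card ≤ b + 1) :
    ∀ A, Cl G A Y → A.Nonempty → ∀ r ∈ R, ∃ a ∈ A, G.Adj r a := by
  intro A hA hAne r hr
  obtain ⟨C, hC, hCc⟩ := exists_comp (G := G) hAne
  have hCY : Cl G C Y := hC.trans hA
  have h1 : nb G C ⊆ R := (nb_comp hCY).trans hR
  have hCZ : C ≠ Z := by
    intro h
    apply hne
    exact Finset.Subset.antisymm hYZ (h ▸ hCY.1)
  have h2 := hM.lt C hCc (hCY.1.trans hYZ) hCZ
  have h3 : nb G C = R := Finset.eq_of_subset_of_card_le h1 (by omega)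
  rw [← h3, mem_nb] at hr
  obtain ⟨_, z, hz, hadj⟩ := hr
  exact ⟨z, hC.1 hz, hadj⟩

lemma full_nb {S Z : Finset V} {b : ℕ} (hM : Min G S Z b) {Y R : Finset V} (hYZ : Y ⊆ Z)
    (hne : Y ≠ Z) (hYne : Y.Nonempty) (hR : nb G Y ⊆ R) (hRc : R.card ≤ b + 1) :
    nb G Y = R ∧ R.card = b + 1 := by
  obtain ⟨C, hCY, hCc⟩ := exists_comp (G := G) hYne
  have h1 : nb G C ⊆ nb G Y := nb_comp hCY
  have hCZ : C ≠ Z := by
    intro h
    apply hne
    exact Finset.Subset.antisymm hYZ (h ▸ hCY.1)
  have h2 := hM.lt C hCc (hCY.1.trans hYZ) hCZ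
  have h4 := Finset.card_le_card h1
  have h5 := Finset.card_le_card hR
  exact ⟨Finset.eq_of_subset_of_card_le hR (by omega), by omega⟩

/-- connectivity after deletion of `K` -/
lemma conn_sdiff {S Z D K : Finset V} {b : ℕ} (hM : Min G S Z b) (hD : Conn G D) (hZD : Z ⊆ D)
    (hZne : Z ≠ D) (hKZ : K ⊆ Z) (hKne : K ≠ Z) (hKn : K.Nonempty)
    (hc : (nb G (Z \ K)).card ≤ b + 1)
    (hQ : nb G Z ∩ D ⊆ nb G (Z \ K)) : Conn G (D \ K) := by
  have hYne : (Z \ K).Nonempty := by
    rw [Finset.sdiff_nonempty]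
    intro h
    exact hKne (Finset.Subset.antisymm hKZ h)
  have hYZ : Z \ K ≠ Z := by
    intro h
    obtain ⟨k, hk⟩ := hKn
    have : k ∈ Z \ K := by rw [h]; exact hKZ hk
    exact (Finset.mem_sdiff.mp this).2 hk
  have hfull := full hM (Y := Z \ K) Finset.sdiff_subset hYZ (Finset.Subset.refl _) hc
  -- Q nonempty
  have hQne : (nb G Z ∩ D).Nonempty := by
    by_contra hQe
    rw [Finset.not_nonempty_iff_eq_empty] at hQe
    apply hZne
    apply hD.2 Z ⟨hZD, ?_⟩ hM.conn.1
    intro a ha c hc' hac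
    by_contra hcZ
    have : c ∈ nb G Z ∩ D := by
      rw [Finset.mem_inter, mem_nb]
      exact ⟨⟨hcZ, a, ha, hac.symm⟩, hc'⟩
    rw [hQe] at this
    simp at this
  obtain ⟨q, hq⟩ := hQne
  have hqD : q ∈ D \ K := by
    rw [Finset.mem_sdiff]
    refine ⟨(Finset.mem_inter.mp hq).2, fun hqK => ?_⟩
    exact (mem_nb.mp (Finset.mem_inter.mp hq).1).1 (hKZ hqK)
  -- key: closed sets meeting Z \ K contain q
  have key : ∀ A, Cl G A (D \ K) → (A ∩ (Z \ K)).Nonempty → nb G Z ∩ D ⊆ A := by
    intro A hA hAne p hp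
    have hcl : Cl G (A ∩ (Z \ K)) (Z \ K) := by
      refine ⟨Finset.inter_subset_right, fun a ha c hc' hac => ?_⟩
      rw [Finset.mem_inter] at ha ⊢
      refine ⟨hA.2 a ha.1 c ?_ hac, hc'⟩
      rw [Finset.mem_sdiff] at hc' ⊢
      exact ⟨hZD hc'.1, hc'.2⟩
    obtain ⟨a, ha, hadj⟩ := hfull _ hcl hAne p (hQ hp)
    rw [Finset.mem_inter] at ha
    refine hA.2 a ha.1 p ?_ hadj.symm
    rw [Finset.mem_sdiff]
    refine ⟨(Finset.mem_inter.mp hp).2, fun hpK => ?_⟩
    exact (mem_nb.mp (Finset.mem_inter.mp hp).1).1 (hKZ hpK)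
  -- key2 : a closed set containing Z \ K is everything
  have key2 : ∀ A, Cl G A (D \ K) → Z \ K ⊆ A → A = D \ K := by
    intro A hA hZA
    have hQA := key A hA (by
      obtain ⟨y, hy⟩ := hYne
      exact ⟨y, by rw [Finset.mem_inter]; exact ⟨hZA hy, hy⟩⟩)
    have hB := hA.sdiff
    -- (D \ K) \ A is closed in D
    have hcl : Cl G ((D \ K) \ A) D := by
      refine ⟨Finset.sdiff_subset.trans Finset.sdiff_subset, fun a ha c hc' hac => ?_⟩
      by_cases hcK : c ∈ K
      · exfalso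
        have haZ : a ∉ Z := by
          intro haZ
          rw [Finset.mem_sdiff, Finset.mem_sdiff] at ha
          exact ha.2 (hZA (by rw [Finset.mem_sdiff]; exact ⟨haZ, ha.1.2⟩))
        have : a ∈ nb G Z ∩ D := by
          rw [Finset.mem_inter, mem_nb]
          rw [Finset.mem_sdiff, Finset.mem_sdiff] at ha
          exact ⟨⟨haZ, c, hKZ hcK, hac⟩, ha.1.1⟩
        rw [Finset.mem_sdiff] at ha
        exact ha.2 (hQA this)
      · exact hB.2 a ha c (by rw [Finset.mem_sdiff]; exact ⟨hc', hcK⟩) hac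
    by_contra hne'
    have hBne : ((D \ K) \ A).Nonempty := by
      rw [Finset.sdiff_nonempty]
      intro h
      exact hne' (Finset.Subset.antisymm hA.1 h)
    have := hD.2 _ hcl hBne
    obtain ⟨y, hy⟩ := hYne
    have hyD : y ∈ (D \ K) \ A := by
      rw [this]
      exact hZD (Finset.mem_sdiff.mp hy).1
    exact (Finset.mem_sdiff.mp hyD).2 (hZA hy)
  refine ⟨⟨q, hqD⟩, fun A hA hAne => ?_⟩
  by_cases h1 : (A ∩ (Z \ K)).Nonempty
  · by_cases h2 : (((D \ K) \ A) ∩ (Z \ K)).Nonempty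
    · have h3 := key _ hA h1 hq
      have h4 := key _ hA.sdiff h2 hq
      exact absurd h3 (Finset.mem_sdiff.mp h4).2
    · apply key2 A hA
      intro y hy
      by_contra hyA
      apply h2
      refine ⟨y, ?_⟩
      rw [Finset.mem_inter, Finset.mem_sdiff]
      refine ⟨⟨?_, hyA⟩, hy⟩
      rw [Finset.mem_sdiff] at hy ⊢
      exact ⟨hZD hy.1, hy.2⟩
  · exfalso
    have h5 := key2 _ hA.sdiff (by
      intro y hy
      rw [Finset.mem_sdiff]
      constructor
      · rw [Finset.mem_sdiff] at hy ⊢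
        exact ⟨hZD hy.1, hy.2⟩
      · intro hyA
        exact h1 ⟨y, by rw [Finset.mem_inter]; exact ⟨hyA, hy⟩⟩)
    obtain ⟨a, ha⟩ := hAne
    have : a ∈ (D \ K) \ A := by rw [h5]; exact hA.1 ha
    exact (Finset.mem_sdiff.mp this).2 ha

lemma one_lt_card {S Z : Finset V} {b : ℕ} (hM : Min G S Z b) (hb : b ≤ S.card)
    (hdeg : ∀ v, S.card < (ne G v Finset.univ).card) : 1 < Z.card := by
  by_contra h
  have h1 : Z.card = 1 := by
    have := Finset.card_pos.mpr hM.conn.1
    omega
  obtain ⟨z, hz⟩ := Finset.card_eq_one.mp h1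
  have h2 : ne G z Finset.univ ⊆ nb G Z := by
    intro x hx
    rw [mem_ne] at hx
    rw [mem_nb, hz]
    refine ⟨fun hxz => ?_, z, Finset.mem_singleton_self z, hx.2.symm⟩
    rw [Finset.mem_singleton] at hxz
    rw [hxz] at hx
    exact G.loopless.irrefl _ hx.2
  have h3 := Finset.card_le_card h2
  have h4 := hdeg z
  rw [hM.card] at h3
  omega

lemma sdiff_ne {Z K : Finset V} (hKZ : K ⊆ Z) (hKn : K.Nonempty) : Z \ K ≠ Z := by
  intro h
  obtain ⟨k, hk⟩ := hKn
  have : k ∈ Z \ K := by rw [h]; exact hKZ hk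
  exact (Finset.mem_sdiff.mp this).2 hk

lemma Z_fort {S Z : Finset V} {b : ℕ} (hM : Min G S Z b) (hb : b ≤ S.card)
    (hdeg : ∀ v, S.card < (ne G v Finset.univ).card) : CF G Z := by
  refine ⟨hM.conn, fun v hv h1 => ?_⟩
  obtain ⟨x, hx⟩ := Finset.card_eq_one.mp h1
  have hxm : x ∈ ne G v Z := by rw [hx]; exact Finset.mem_singleton_self x
  rw [mem_ne] at hxm
  have hc := one_lt_card hM hb hdeg
  have hYne : (Z \ {x}).Nonempty := by
    rw [Finset.sdiff_nonempty]
    intro h
    have := Finset.card_le_card h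
    rw [Finset.card_singleton] at this
    omega
  have hvnb : v ∈ nb G Z := by
    rw [mem_nb]
    exact ⟨hv, x, hxm.1, hxm.2⟩
  have hxnb : x ∉ (nb G Z).erase v := by
    intro h
    rw [Finset.mem_erase, mem_nb] at h
    exact h.2.1 hxm.1
  have hRc : (insert x ((nb G Z).erase v)).card = b := by
    rw [Finset.card_insert_of_notMem hxnb, Finset.card_erase_of_mem hvnb, hM.card]
    have : 0 < (nb G Z).card := Finset.card_pos.mpr ⟨v, hvnb⟩
    rw [hM.card] at this
    omega
  have hsub : nb G (Z \ {x}) ⊆ insert x ((nb G Z).erase v) := by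
    intro y hy
    rw [mem_nb] at hy
    obtain ⟨hy1, z, hz, hadj⟩ := hy
    rw [Finset.mem_insert]
    by_cases hyx : y = x
    · left; exact hyx
    · right
      rw [Finset.mem_sdiff, Finset.mem_singleton] at hz hy1
      rw [Finset.mem_erase, mem_nb]
      refine ⟨?_, fun hyZ => hy1 ⟨hyZ, hyx⟩, z, hz.1, hadj⟩
      rintro rfl
      have : z ∈ ne G y Z := by rw [mem_ne]; exact ⟨hz.1, hadj⟩
      rw [hx, Finset.mem_singleton] at this
      exact hz.2 this
  have := full_nb hM (Y := Z \ {x}) Finset.sdiff_subset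
    (sdiff_ne (by simpa using hxm.1) ⟨x, Finset.mem_singleton_self x⟩) hYne hsub (by omega)
  omega

/-- invariant of the forcing process -/
structure Inv (G : SimpleGraph V) (Z D K : Finset V) (w : V) (b : ℕ) : Prop where
  mem : w ∈ K
  sub : K ⊆ Z
  ne' : K ≠ Z
  card : (nb G (Z \ K)).card ≤ b + 1
  q : nb G Z ∩ D ⊆ nb G (Z \ K)
  fort : ∀ v, v ∉ D \ K → v ∉ nb G (Z \ K) → (ne G v (D \ K)).card ≠ 1

lemma base {S Z D : Finset V} {b : ℕ} {w : V} (hM : Min G S Z b) (hb : b ≤ S.card)
    (hdeg : ∀ v, S.card < (ne G v Finset.univ).card) (hZD : Z ⊆ D) (hw : w ∈ Z)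
    (hD : ∀ v, v ∉ D → (ne G v D).card ≠ 1) : Inv G Z D {w} w b := by
  have hc := one_lt_card hM hb hdeg
  have hYne : (Z \ {w}).Nonempty := by
    rw [Finset.sdiff_nonempty]
    intro h
    have := Finset.card_le_card h
    rw [Finset.card_singleton] at this
    omega
  have hwnb : w ∉ nb G Z := by
    intro h
    rw [mem_nb] at h
    exact h.1 hw
  have hsub : nb G (Z \ {w}) ⊆ insert w (nb G Z) := by
    intro y hy
    rw [mem_nb] at hy
    obtain ⟨hy1, z, hz, hadj⟩ := hy
    rw [Finset.mem_insert]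
    by_cases hyx : y = w
    · left; exact hyx
    · right
      rw [Finset.mem_sdiff, Finset.mem_singleton] at hz hy1
      rw [mem_nb]
      exact ⟨fun hyZ => hy1 ⟨hyZ, hyx⟩, z, hz.1, hadj⟩
  have hRc : (insert w (nb G Z)).card = b + 1 := by
    rw [Finset.card_insert_of_notMem hwnb, hM.card]
  have hf := full_nb hM (Y := Z \ {w}) Finset.sdiff_subset
    (sdiff_ne (by simpa using hw) ⟨w, Finset.mem_singleton_self w⟩) hYne hsub (by omega)
  refine ⟨Finset.mem_singleton_self w, by simpa using hw, ?_, ?_, ?_, ?_⟩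
  · intro h
    rw [← h, Finset.card_singleton] at hc
    omega
  · rw [hf.1]; omega
  · rw [hf.1]
    intro y hy
    exact Finset.mem_insert_of_mem (Finset.mem_inter.mp hy).1
  · intro v hv hvn
    rw [hf.1, Finset.mem_insert] at hvn
    push Not at hvn
    have hvD : v ∉ D := by
      intro h
      exact hv (by rw [Finset.mem_sdiff, Finset.mem_singleton]; exact ⟨h, hvn.1⟩)
    have hvw : ¬ G.Adj v w := by
      intro h
      apply hvn.2
      rw [mem_nb]
      exact ⟨fun hZ => hvD (hZD hZ), w, hw, h⟩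
    have : ne G v (D \ {w}) = ne G v D := by
      ext x
      rw [mem_ne, mem_ne, Finset.mem_sdiff, Finset.mem_singleton]
      constructor
      · rintro ⟨⟨h1, _⟩, h2⟩; exact ⟨h1, h2⟩
      · rintro ⟨h1, h2⟩
        refine ⟨⟨h1, ?_⟩, h2⟩
        rintro rfl
        exact hvw h2
    rw [this]
    exact hD v hvD

lemma step {S Z D K : Finset V} {b : ℕ} {w : V} (hM : Min G S Z b) (hb : b + 1 ≤ S.card)
    (hdeg : ∀ v, S.card < (ne G v Finset.univ).card) (hZD : Z ⊆ D)
    (hI : Inv G Z D K w b) {v : V} (hv : v ∉ D \ K) (h1 : (ne G v (D \ K)).card = 1) :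
    ∃ z, z ∈ Z \ K ∧ Inv G Z D (insert z K) w b := by
  have hvn : v ∈ nb G (Z \ K) := by
    by_contra h
    exact hI.fort v hv h h1
  obtain ⟨_, z, hz, hadj⟩ := mem_nb.mp hvn
  have hzD : z ∈ D \ K := by
    rw [Finset.mem_sdiff] at hz ⊢
    exact ⟨hZD hz.1, hz.2⟩
  have hne : ne G v (D \ K) = {z} := by
    obtain ⟨x, hx⟩ := Finset.card_eq_one.mp h1
    have : z ∈ ne G v (D \ K) := by rw [mem_ne]; exact ⟨hzD, hadj⟩
    rw [hx, Finset.mem_singleton] at this
    rw [hx, this]
  have honly : ∀ y ∈ D \ K, G.Adj v y → y = z := by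
    intro y hy hvy
    have : y ∈ ne G v (D \ K) := by rw [mem_ne]; exact ⟨hy, hvy⟩
    rw [hne, Finset.mem_singleton] at this
    exact this
  have hK' : insert z K ⊆ Z := by
    intro y hy
    rw [Finset.mem_insert] at hy
    rcases hy with rfl | hy
    · exact (Finset.mem_sdiff.mp hz).1
    · exact hI.sub hy
  have hKne : insert z K ≠ Z := by
    intro h
    -- then Z \ K = {z}
    have hZK : Z \ K = {z} := by
      ext y
      rw [Finset.mem_sdiff, Finset.mem_singleton]
      constructor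
      · rintro ⟨hy1, hy2⟩
        rw [← h, Finset.mem_insert] at hy1
        exact hy1.resolve_right hy2
      · rintro rfl
        exact Finset.mem_sdiff.mp hz
    have h2 : ne G z Finset.univ ⊆ nb G (Z \ K) := by
      intro x hx
      rw [mem_ne] at hx
      rw [mem_nb, hZK]
      refine ⟨fun hxz => ?_, z, Finset.mem_singleton_self z, hx.2.symm⟩
      rw [Finset.mem_singleton] at hxz
      rw [hxz] at hx
      exact G.loopless.irrefl _ hx.2
    have h3 := Finset.card_le_card h2
    have h4 := hdeg z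
    have h5 := hI.card
    omega
  have hYne : (Z \ insert z K).Nonempty := by
    rw [Finset.sdiff_nonempty]
    intro h
    exact hKne (Finset.Subset.antisymm hK' h)
  have hznb : z ∉ (nb G (Z \ K)).erase v := by
    intro h
    rw [Finset.mem_erase, mem_nb] at h
    exact h.2.1 hz
  have hRc : (insert z ((nb G (Z \ K)).erase v)).card ≤ b + 1 := by
    rw [Finset.card_insert_of_notMem hznb, Finset.card_erase_of_mem hvn]
    have : 0 < (nb G (Z \ K)).card := Finset.card_pos.mpr ⟨v, hvn⟩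
    have := hI.card
    omega
  have hsub : nb G (Z \ insert z K) ⊆ insert z ((nb G (Z \ K)).erase v) := by
    intro y hy
    rw [mem_nb] at hy
    obtain ⟨hy1, x, hx, hyx⟩ := hy
    rw [Finset.mem_sdiff, Finset.mem_insert, not_or] at hx
    rw [Finset.mem_insert]
    by_cases hyz : y = z
    · left; exact hyz
    · right
      rw [Finset.mem_erase, mem_nb]
      refine ⟨?_, ?_, x, ?_, hyx⟩
      · rintro rfl
        exact hx.2.1 (honly x (by rw [Finset.mem_sdiff]; exact ⟨hZD hx.1, hx.2.2⟩) hyx)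
      · intro hyZK
        apply hy1
        rw [Finset.mem_sdiff] at hyZK ⊢
        refine ⟨hyZK.1, ?_⟩
        rw [Finset.mem_insert, not_or]
        exact ⟨hyz, hyZK.2⟩
      · rw [Finset.mem_sdiff]
        exact ⟨hx.1, hx.2.2⟩
  have hf := full_nb hM (Y := Z \ insert z K) Finset.sdiff_subset
    (sdiff_ne hK' (Finset.insert_nonempty z K)) hYne hsub hRc
  refine ⟨z, hz, Finset.mem_insert_of_mem hI.mem, hK', hKne, by rw [hf.1]; exact hRc, ?_, ?_⟩
  · rw [hf.1]
    intro y hy
    refine Finset.mem_insert_of_mem ?_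
    rw [Finset.mem_erase]
    refine ⟨?_, hI.q hy⟩
    rintro rfl
    rw [Finset.mem_inter] at hy
    apply hv
    rw [Finset.mem_sdiff]
    exact ⟨hy.2, fun hyK => (mem_nb.mp hy.1).1 (hI.sub hyK)⟩
  · intro y hy hyn
    rw [hf.1, Finset.mem_insert, Finset.mem_erase] at hyn
    push Not at hyn
    have hyDK : y ∉ D \ K := by
      intro h
      apply hy
      rw [Finset.mem_sdiff] at h ⊢
      refine ⟨h.1, ?_⟩
      rw [Finset.mem_insert, not_or]
      exact ⟨hyn.1, h.2⟩
    by_cases hyv : y = v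
    · have : ne G y (D \ insert z K) = ∅ := by
        rw [Finset.eq_empty_iff_forall_notMem]
        intro x hx
        rw [mem_ne, Finset.mem_sdiff, Finset.mem_insert, not_or] at hx
        rw [hyv] at hx
        exact hx.1.2.1 (honly x (by rw [Finset.mem_sdiff]; exact ⟨hx.1.1, hx.1.2.2⟩) hx.2)
      rw [this]
      simp
    · have hyn' := hyn.2 hyv
      have hyz : ¬ G.Adj y z := by
        intro h
        apply hyn'
        rw [mem_nb]
        refine ⟨fun hh => hyDK ?_, z, hz, h⟩
        rw [Finset.mem_sdiff] at hh ⊢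
        exact ⟨hZD hh.1, hh.2⟩
      have : ne G y (D \ insert z K) = ne G y (D \ K) := by
        ext x
        rw [mem_ne, mem_ne, Finset.mem_sdiff, Finset.mem_sdiff, Finset.mem_insert, not_or]
        constructor
        · rintro ⟨⟨h1, _, h3⟩, h2⟩; exact ⟨⟨h1, h3⟩, h2⟩
        · rintro ⟨⟨h1, h3⟩, h2⟩
          refine ⟨⟨h1, ?_, h3⟩, h2⟩
          rintro rfl
          exact hyz h2
      rw [this]
      exact hI.fort y hyDK hyn'

lemma case_lt {S Z D : Finset V} {b : ℕ} {w : V} (hM : Min G S Z b) (hb : b + 1 ≤ S.card)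
    (hdeg : ∀ v, S.card < (ne G v Finset.univ).card) (hD : CF G D) (hZD : Z ⊆ D)
    (hZne : Z ≠ D) (hw : w ∈ Z) : ∃ K, w ∈ K ∧ K ⊆ Z ∧ CF G (D \ K) := by
  have hne : (Z.powerset.filter (fun K => Inv G Z D K w b)).Nonempty :=
    ⟨{w}, by
      rw [Finset.mem_filter, Finset.mem_powerset]
      exact ⟨by simpa using hw, base hM (by omega) hdeg hZD hw hD.2⟩⟩
  obtain ⟨K, hK, hmax⟩ := Finset.exists_max_image _ (fun K => K.card) hne
  rw [Finset.mem_filter] at hK
  have hI := hK.2
  refine ⟨K, hI.mem, hI.sub, conn_sdiff hM hD.1 hZD hZne hI.sub hI.ne' ⟨w, hI.mem⟩ hI.card hI.q,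
    fun v hv h1 => ?_⟩
  obtain ⟨z, hz, hI'⟩ := step hM hb hdeg hZD hI hv h1
  have := hmax (insert z K) (by
    rw [Finset.mem_filter, Finset.mem_powerset]
    exact ⟨hI'.sub, hI'⟩)
  rw [Finset.card_insert_of_notMem (Finset.mem_sdiff.mp hz).2] at this
  omega

lemma case_eq {S Z : Finset V} {b : ℕ} {w u : V} (hM : Min G S Z b) (hb : b = S.card)
    (hdeg : ∀ v, S.card < (ne G v Finset.univ).card) (hw : w ∈ Z) (hu : u ∈ S) :
    CF G ((Finset.univ \ S.erase u) \ {w}) := by
  set D := Finset.univ \ S.erase u with hDdef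
  have huD : u ∈ D := by simp [hDdef]
  have hpos : 0 < S.card := Finset.card_pos.mpr ⟨u, hu⟩
  have hconn : ∀ A, Cl G A D → A.Nonempty → u ∈ A := by
    intro A hA hAne
    by_contra huA
    obtain ⟨C, hC, hCc⟩ := exists_comp (G := G) hAne
    have hCD := hC.trans hA
    have hCS : Disjoint C S := by
      rw [Finset.disjoint_left]
      intro a ha haS
      have h1 := hCD.1 ha
      have h2 : a ≠ u := by
        rintro rfl
        exact huA (hC.1 ha)
      simp [hDdef, haS, h2] at h1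
    have h3 := hM.le C hCc hCS
    have h4 : nb G C ⊆ S.erase u := by
      intro v hv
      rw [mem_nb] at hv
      obtain ⟨hvC, z, hz, hadj⟩ := hv
      by_contra hvS
      exact hvC (hCD.2 z hz v (by rw [hDdef, Finset.mem_sdiff]; exact ⟨Finset.mem_univ _, hvS⟩)
        hadj.symm)
    have h5 := Finset.card_le_card h4
    rw [Finset.card_erase_of_mem hu] at h5
    omega
  have hDc : Conn G D := by
    refine ⟨⟨u, huD⟩, fun A hA hAne => ?_⟩
    by_contra hne
    have hB : (D \ A).Nonempty := by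
      rw [Finset.sdiff_nonempty]
      intro h
      exact hne (Finset.Subset.antisymm hA.1 h)
    have h1 := hconn A hA hAne
    have h2 := hconn _ hA.sdiff hB
    exact (Finset.mem_sdiff.mp h2).2 h1
  have hZD : Z ⊆ D := by
    intro z hz
    have : z ∉ S := Finset.disjoint_left.mp hM.disj hz
    simp [hDdef, this]
  have huZ : u ∉ Z := fun h => Finset.disjoint_left.mp hM.disj h hu
  have hZne : Z ≠ D := by
    intro h
    exact huZ (h ▸ huD)
  have hc := one_lt_card hM (by omega) hdeg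
  have hwZ : ({w} : Finset V) ⊆ Z := by simpa using hw
  have hYne : (Z \ {w}).Nonempty := by
    rw [Finset.sdiff_nonempty]
    intro h
    have := Finset.card_le_card h
    rw [Finset.card_singleton] at this
    omega
  have hwnb : w ∉ nb G Z := by
    intro h
    rw [mem_nb] at h
    exact h.1 hw
  have hsub : nb G (Z \ {w}) ⊆ insert w (nb G Z) := by
    intro y hy
    rw [mem_nb] at hy
    obtain ⟨hy1, z, hz, hadj⟩ := hy
    rw [Finset.mem_insert]
    by_cases hyx : y = w
    · left; exact hyx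
    · right
      rw [Finset.mem_sdiff, Finset.mem_singleton] at hz hy1
      rw [mem_nb]
      exact ⟨fun hyZ => hy1 ⟨hyZ, hyx⟩, z, hz.1, hadj⟩
  have hRc : (insert w (nb G Z)).card = b + 1 := by
    rw [Finset.card_insert_of_notMem hwnb, hM.card]
  have hf := full_nb hM (Y := Z \ {w}) Finset.sdiff_subset
    (sdiff_ne hwZ ⟨w, Finset.mem_singleton_self w⟩) hYne hsub (by omega)
  refine ⟨conn_sdiff hM hDc hZD hZne hwZ ?_ ⟨w, Finset.mem_singleton_self w⟩
    (by rw [hf.1]; omega) ?_, ?_⟩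
  · intro h
    rw [← h, Finset.card_singleton] at hc
    omega
  · rw [hf.1]
    intro y hy
    exact Finset.mem_insert_of_mem (Finset.mem_inter.mp hy).1
  · intro v hv h1
    -- neighbours of v outside D \ {w} lie in insert w (S.erase u) minus v
    have hvm : v ∈ insert w (S.erase u) := by
      by_contra h
      apply hv
      rw [Finset.mem_insert, not_or] at h
      rw [Finset.mem_sdiff, hDdef, Finset.mem_sdiff, Finset.mem_singleton]
      exact ⟨⟨Finset.mem_univ _, h.2⟩, h.1⟩
    have hwS : w ∉ S.erase u := fun h =>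
      Finset.disjoint_left.mp hM.disj hw (Finset.mem_of_mem_erase h)
    have hcard : (insert w (S.erase u)).card = S.card := by
      rw [Finset.card_insert_of_notMem hwS, Finset.card_erase_of_mem hu]
      omega
    have hsub2 : ne G v Finset.univ ⊆ (insert w (S.erase u)).erase v ∪ ne G v (D \ {w}) := by
      intro x hx
      rw [mem_ne] at hx
      rw [Finset.mem_union, Finset.mem_erase, mem_ne]
      by_cases hxm : x ∈ insert w (S.erase u)
      · left
        refine ⟨?_, hxm⟩
        rintro rfl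
        exact G.loopless.irrefl _ hx.2
      · right
        refine ⟨?_, hx.2⟩
        rw [Finset.mem_insert, not_or] at hxm
        rw [Finset.mem_sdiff, hDdef, Finset.mem_sdiff, Finset.mem_singleton]
        exact ⟨⟨Finset.mem_univ _, hxm.2⟩, hxm.1⟩
    have h2 := Finset.card_le_card hsub2
    have h3 := Finset.card_union_le ((insert w (S.erase u)).erase v) (ne G v (D \ {w}))
    rw [Finset.card_erase_of_mem hvm, hcard] at h3
    have h4 := hdeg v
    omega

/-- union of connected forts that meet -/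
lemma CF.union {D Z : Finset V} {w : V} (hD : CF G D) (hZ : CF G Z) (hwD : w ∈ D)
    (hwZ : w ∈ Z) : CF G (D ∪ Z) := by
  constructor
  · refine ⟨⟨w, Finset.mem_union_left _ hwD⟩, fun A hA hAne => ?_⟩
    have hAD : Cl G (A ∩ D) D := by
      refine ⟨Finset.inter_subset_right, fun a ha c hc hac => ?_⟩
      rw [Finset.mem_inter] at ha ⊢
      exact ⟨hA.2 a ha.1 c (Finset.mem_union_left _ hc) hac, hc⟩
    have hAZ : Cl G (A ∩ Z) Z := by
      refine ⟨Finset.inter_subset_right, fun a ha c hc hac => ?_⟩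
      rw [Finset.mem_inter] at ha ⊢
      exact ⟨hA.2 a ha.1 c (Finset.mem_union_right _ hc) hac, hc⟩
    have hwA : w ∈ A := by
      obtain ⟨a, ha⟩ := hAne
      rcases Finset.mem_union.mp (hA.1 ha) with h | h
      · have := hD.1.2 _ hAD ⟨a, by rw [Finset.mem_inter]; exact ⟨ha, h⟩⟩
        rw [← this] at hwD
        exact (Finset.mem_inter.mp hwD).1
      · have := hZ.1.2 _ hAZ ⟨a, by rw [Finset.mem_inter]; exact ⟨ha, h⟩⟩
        rw [← this] at hwZ
        exact (Finset.mem_inter.mp hwZ).1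
    have h1 := hD.1.2 _ hAD ⟨w, by rw [Finset.mem_inter]; exact ⟨hwA, hwD⟩⟩
    have h2 := hZ.1.2 _ hAZ ⟨w, by rw [Finset.mem_inter]; exact ⟨hwA, hwZ⟩⟩
    apply Finset.Subset.antisymm hA.1
    intro x hx
    rcases Finset.mem_union.mp hx with h | h
    · rw [← h1] at h; exact (Finset.mem_inter.mp h).1
    · rw [← h2] at h; exact (Finset.mem_inter.mp h).1
  · intro v hv h1
    rw [Finset.mem_union, not_or] at hv
    have h2 := hD.2 v hv.1
    have h3 := hZ.2 v hv.2
    have h4 : (ne G v D).card ≤ (ne G v (D ∪ Z)).card := Finset.card_le_card (by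
      intro x hx
      rw [mem_ne] at hx ⊢
      exact ⟨Finset.mem_union_left _ hx.1, hx.2⟩)
    have h5 : (ne G v Z).card ≤ (ne G v (D ∪ Z)).card := Finset.card_le_card (by
      intro x hx
      rw [mem_ne] at hx ⊢
      exact ⟨Finset.mem_union_right _ hx.1, hx.2⟩)
    have h6 : (ne G v (D ∪ Z)).card ≤ (ne G v D).card + (ne G v Z).card := by
      refine (Finset.card_le_card ?_).trans (Finset.card_union_le _ _)
      intro x hx
      rw [mem_ne, Finset.mem_union] at hx
      rw [Finset.mem_union, mem_ne, mem_ne]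
      rcases hx.1 with h | h
      · left; exact ⟨h, hx.2⟩
      · right; exact ⟨h, hx.2⟩
    omega

/-- The combinatorial core. -/
theorem core {S : Finset V} (hdeg : ∀ v, S.card < (ne G v Finset.univ).card)
    (hS : ∀ u ∈ S, ∃ D, CF G D ∧ u ∈ D ∧ ∀ x ∈ D, x ∈ S → x = u) (hSne : S ≠ Finset.univ) :
    ∃ w, w ∉ S ∧ (∃ Z, CF G Z ∧ w ∈ Z ∧ Disjoint Z S) ∧
      ∀ u ∈ S, ∃ D, CF G D ∧ u ∈ D ∧ w ∉ D ∧ ∀ x ∈ D, x ∈ S → x = u := by
  obtain ⟨Z, b, hM, hb⟩ := exists_Min (G := G) S hSne
  obtain ⟨w, hw⟩ := hM.conn.1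
  have hZf := Z_fort hM hb hdeg
  refine ⟨w, Finset.disjoint_left.mp hM.disj hw, ⟨Z, hZf, hw, hM.disj⟩, fun u hu => ?_⟩
  rcases Nat.lt_or_ge b S.card with hlt | hge
  · -- choose a maximal private connected fort
    have hne : (Finset.univ.filter (fun D => CF G D ∧ u ∈ D ∧ ∀ x ∈ D, x ∈ S → x = u)).Nonempty := by
      obtain ⟨D, hD⟩ := hS u hu
      exact ⟨D, by rw [Finset.mem_filter]; exact ⟨Finset.mem_univ _, hD⟩⟩
    obtain ⟨D, hD, hmax⟩ := Finset.exists_max_image _ (fun D => D.card) hne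
    rw [Finset.mem_filter] at hD
    obtain ⟨_, hDf, huD, hDS⟩ := hD
    by_cases hwD : w ∈ D
    · have hun := hDf.union hZf hwD hw
      have hZD : Z ⊆ D := by
        have h1 := hmax (D ∪ Z) (by
          rw [Finset.mem_filter]
          refine ⟨Finset.mem_univ _, hun, Finset.mem_union_left _ huD, fun x hx hxS => ?_⟩
          rcases Finset.mem_union.mp hx with h | h
          · exact hDS x h hxS
          · exact absurd hxS (Finset.disjoint_left.mp hM.disj h))
        have h2 := Finset.eq_of_subset_of_card_le (Finset.subset_union_left (s₁ := D) (s₂ := Z)) h1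
        rw [h2]
        exact Finset.subset_union_right
      have huZ : u ∉ Z := fun h => Finset.disjoint_left.mp hM.disj h hu
      obtain ⟨K, hwK, hKZ, hK⟩ := case_lt hM hlt hdeg hDf hZD (fun h => huZ (h ▸ huD)) hw
      refine ⟨D \ K, hK, ?_, ?_, ?_⟩
      · rw [Finset.mem_sdiff]
        exact ⟨huD, fun h => huZ (hKZ h)⟩
      · intro h
        exact (Finset.mem_sdiff.mp h).2 hwK
      · intro x hx hxS
        exact hDS x (Finset.mem_sdiff.mp hx).1 hxS
    · exact ⟨D, hDf, huD, hwD, hDS⟩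
  · have h := case_eq hM (by omega) hdeg hw hu
    have hwu : w ≠ u := by
      rintro rfl
      exact Finset.disjoint_left.mp hM.disj hw hu
    refine ⟨_, h, ?_, ?_, ?_⟩
    · simp [hwu.symm]
    · simp
    · intro x hx hxS
      simp only [Finset.mem_sdiff, Finset.mem_univ, true_and, Finset.mem_erase, not_and,
        Finset.mem_singleton] at hx
      by_contra hxu
      exact hx.1 hxu hxS

end core

section link

variable [Fintype V] {G : SimpleGraph V}

lemma fort_to_CF {F : Set V} (hF : IsPSDFort G F) {u : V} (hu : u ∈ F) :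
    ∃ D : Finset V, CF G D ∧ u ∈ D ∧ ∀ x ∈ D, x ∈ F := by
  set W := (G.induce F).connectedComponentMk ⟨u, hu⟩ with hW
  set D : Finset V := Finset.univ.filter
    (fun x => ∃ h : x ∈ F, (G.induce F).connectedComponentMk ⟨x, h⟩ = W) with hD
  have hmem : ∀ x, x ∈ D ↔ ∃ h : x ∈ F, (G.induce F).connectedComponentMk ⟨x, h⟩ = W := by
    intro x; rw [hD, Finset.mem_filter]; simp only [Finset.mem_univ, true_and]
  have huD : u ∈ D := (hmem u).mpr ⟨hu, rfl⟩
  -- adjacency inside F keeps us in D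
  have hstep : ∀ x y, x ∈ D → y ∈ F → G.Adj x y → y ∈ D := by
    intro x y hx hy hxy
    obtain ⟨hxF, hxW⟩ := (hmem x).mp hx
    refine (hmem y).mpr ⟨hy, ?_⟩
    rw [← hxW, SimpleGraph.ConnectedComponent.eq]
    have : (G.induce F).Adj ⟨y, hy⟩ ⟨x, hxF⟩ := by
      rw [SimpleGraph.comap_adj]
      exact hxy.symm
    exact this.reachable
  refine ⟨D, ⟨⟨⟨u, huD⟩, fun A hA hAne => ?_⟩, fun v hv h1 => ?_⟩, huD,
    fun x hx => ((hmem x).mp hx).1⟩
  · obtain ⟨a, ha⟩ := hAne
    apply Finset.Subset.antisymm hA.1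
    intro x hx
    obtain ⟨haF, haW⟩ := (hmem a).mp (hA.1 ha)
    obtain ⟨hxF, hxW⟩ := (hmem x).mp hx
    have hr : (G.induce F).Reachable ⟨a, haF⟩ ⟨x, hxF⟩ := by
      rw [← SimpleGraph.ConnectedComponent.eq, haW, hxW]
    rw [SimpleGraph.reachable_iff_reflTransGen] at hr
    have key : ∀ y : F, Relation.ReflTransGen (G.induce F).Adj ⟨a, haF⟩ y → (y : V) ∈ A := by
      intro y hy
      induction hy with
      | refl => exact ha
      | tail _ hadj ih =>
        rename_i c d _
        have hcd : G.Adj c d := by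
          rw [SimpleGraph.comap_adj] at hadj
          exact hadj
        exact hA.2 _ ih _ (hstep _ _ (hA.1 ih) d.2 hcd) hcd
    exact key _ hr
  · by_cases hvF : v ∈ F
    · have : ne G v D = ∅ := by
        rw [Finset.eq_empty_iff_forall_notMem]
        intro x hx
        rw [mem_ne] at hx
        exact hv (hstep x v hx.1 hvF hx.2.symm)
      rw [this] at h1
      simp at h1
    · apply hF.2 v hvF W
      rw [← h1, ← Set.ncard_coe_finset]
      congr 1
      ext x
      rw [Finset.mem_coe, mem_ne, hmem x]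
      simp only [Set.mem_ofPred_eq]
      tauto

lemma CF_to_fort {D : Finset V} (hD : CF G D) : IsPSDFort G (D : Set V) := by
  refine ⟨by simpa using hD.1.1, fun v hv W h1 => ?_⟩
  obtain ⟨⟨x, hx⟩, hxW⟩ := W.exists_rep
  have hxD : x ∈ D := hx
  have hconn : ∀ y (hy : y ∈ D), (G.induce (D : Set V)).Reachable ⟨x, hx⟩ ⟨y, hy⟩ := by
    have hA := hD.1.2 (D.filter (fun y => ∃ h : y ∈ (D : Set V),
      (G.induce (D : Set V)).Reachable ⟨x, hx⟩ ⟨y, h⟩)) ⟨Finset.filter_subset _ _, ?_⟩
      ⟨x, by rw [Finset.mem_filter]; exact ⟨hxD, hx, SimpleGraph.Reachable.refl _⟩⟩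
    · intro y hy
      rw [← hA, Finset.mem_filter] at hy
      exact hy.2.2
    · intro a ha c hc hac
      rw [Finset.mem_filter] at ha ⊢
      obtain ⟨_, haD, hr⟩ := ha
      refine ⟨hc, hc, hr.trans ?_⟩
      have : (G.induce (D : Set V)).Adj ⟨a, haD⟩ ⟨c, hc⟩ := by
        rw [SimpleGraph.comap_adj]
        exact hac
      exact this.reachable
  apply hD.2 v (by simpa using hv)
  rw [← h1, ← Set.ncard_coe_finset]
  congr 1
  ext y
  rw [Finset.mem_coe, mem_ne]
  simp only [Set.mem_ofPred_eq]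
  constructor
  · rintro ⟨hy, hvy⟩
    refine ⟨hvy, hy, ?_⟩
    rw [← hxW]
    change (G.induce (D : Set V)).connectedComponentMk _ =
      (G.induce (D : Set V)).connectedComponentMk _
    rw [SimpleGraph.ConnectedComponent.eq]
    exact (hconn y hy).symm
  · rintro ⟨hvy, hy, _⟩
    exact ⟨hy, hvy⟩

theorem main [Nonempty V] (S : Set V) (hS : IsMaxZIr G S) : delta G ≤ S.ncard := by
  by_contra hlt
  push Not at hlt
  set T : Finset V := Finset.univ.filter (fun x => x ∈ S) with hT
  have hmem : ∀ x, x ∈ T ↔ x ∈ S := by intro x; simp [hT]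
  have hTS : (T : Set V) = S := by ext x; rw [Finset.mem_coe, hmem]
  have hcard : T.card = S.ncard := by rw [← hTS, Set.ncard_coe_finset]
  have hdeg : ∀ v, T.card < (ne G v Finset.univ).card := by
    intro v
    have h1 : delta G ≤ (G.neighborSet v).ncard := Nat.sInf_le ⟨v, rfl⟩
    have h2 : (G.neighborSet v).ncard = (ne G v Finset.univ).card := by
      rw [← Set.ncard_coe_finset]
      congr 1
      ext x
      rw [Finset.mem_coe, mem_ne, SimpleGraph.mem_neighborSet]
      simp
    omega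
  have hne : T ≠ Finset.univ := by
    intro h
    obtain ⟨v⟩ := ‹Nonempty V›
    have h1 := hdeg v
    have h2 : (ne G v Finset.univ).card ≤ (Finset.univ : Finset V).card :=
      Finset.card_le_card (Finset.subset_univ _)
    rw [h] at h1
    omega
  obtain ⟨w, hw, ⟨Z, hZ, hwZ, hZT⟩, hD⟩ := core (G := G) (S := T) hdeg (by
    intro u hu
    obtain ⟨F, hF, hSF⟩ := hS.1 u ((hmem u).mp hu)
    have huF : u ∈ F := by
      have : u ∈ S ∩ F := by rw [hSF]; rfl
      exact this.2
    obtain ⟨D, hDc, huD, hDF⟩ := fort_to_CF hF huF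
    refine ⟨D, hDc, huD, fun x hx hxT => ?_⟩
    have : x ∈ S ∩ F := ⟨(hmem x).mp hxT, hDF x hx⟩
    rw [hSF] at this
    exact this) hne
  have hwS : w ∉ S := fun h => hw ((hmem w).mpr h)
  have hI : IsZIr G (insert w S) := by
    intro u hu
    rcases Set.mem_insert_iff.mp hu with rfl | hu
    · refine ⟨(Z : Set V), CF_to_fort hZ, ?_⟩
      ext x
      rw [Set.mem_inter_iff, Set.mem_insert_iff, Set.mem_singleton_iff, Finset.mem_coe]
      constructor
      · rintro ⟨h1 | h1, h2⟩
        · exact h1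
        · exact absurd ((hmem x).mpr h1) (Finset.disjoint_left.mp hZT h2)
      · rintro rfl
        exact ⟨Or.inl rfl, hwZ⟩
    · obtain ⟨D, hDc, huD, hwD, hDT⟩ := hD u ((hmem u).mpr hu)
      refine ⟨(D : Set V), CF_to_fort hDc, ?_⟩
      ext x
      rw [Set.mem_inter_iff, Set.mem_insert_iff, Set.mem_singleton_iff, Finset.mem_coe]
      constructor
      · rintro ⟨h1 | h1, h2⟩
        · rw [h1] at h2
          exact absurd h2 hwD
        · exact hDT x h2 ((hmem x).mpr h1)
      · rintro rfl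
        exact ⟨Or.inr hu, huD⟩
  have := hS.2 _ hI (Set.subset_insert w S)
  apply hwS
  rw [← this]
  exact Set.mem_insert w S

lemma exists_max : ∃ S : Set V, IsMaxZIr G S := by
  have hne : (Finset.univ.filter (fun T : Finset V => IsZIr G (T : Set V))).Nonempty :=
    ⟨∅, by
      rw [Finset.mem_filter]
      refine ⟨Finset.mem_univ _, fun u hu => ?_⟩
      simp at hu⟩
  obtain ⟨T, hT, hmax⟩ := Finset.exists_max_image _ (fun T => T.card) hne
  rw [Finset.mem_filter] at hT
  refine ⟨(T : Set V), hT.2, fun U hU hTU => ?_⟩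
  set U' : Finset V := Finset.univ.filter (fun x => x ∈ U) with hU'
  have hUU : (U' : Set V) = U := by ext x; simp [hU']
  have h1 := hmax U' (by
    rw [Finset.mem_filter, hUU]
    exact ⟨Finset.mem_univ _, hU⟩)
  have h2 : T ⊆ U' := by
    intro x hx
    rw [hU', Finset.mem_filter]
    exact ⟨Finset.mem_univ _, hTU hx⟩
  rw [Finset.eq_of_subset_of_card_le h2 h1, hUU]

end link

/-- For every finite simple graph with a nonempty vertex set, every maximal `Z₊Ir`-set has at
least `δ(G)` elements, that is `δ(G) ≤ z₊ir(G)`. -/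
theorem result {V : Type u} [Fintype V] [Nonempty V] (G : SimpleGraph V) :
    (∃ S : Set V, IsMaxZIr G S) ∧ (∀ S : Set V, IsMaxZIr G S → delta G ≤ S.ncard) ∧
      delta G ≤ zir G := by
  refine ⟨exists_max, main, ?_⟩
  have hne : {k | ∃ S : Set V, IsMaxZIr G S ∧ S.ncard = k}.Nonempty := by
    obtain ⟨S, hS⟩ := exists_max (G := G)
    exact ⟨_, S, hS, rfl⟩
  obtain ⟨S, hS, hk⟩ := Nat.sInf_mem hne
  unfold zir
  rw [← hk]
  exact main S hS

end Pool.Agent.Results.MP_3c4d8f_co.MinDegreeBound
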